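import Mathlib

set_option autoImplicit false

namespace Pool.Agent.H458Z.Cvx

/-- The equispaced design points `0, 1/(n-1), ..., 1` (indices start at `0`). -/
noncomputable def design (n : ℕ) (i : Fin n) : ℝ := (i : ℝ) / ((n : ℝ) - 1)

/-- The slope between the design points `i` and `i + 1`. -/
noncomputable def slope {n : ℕ} (θ : Fin n → ℝ) (i : ℕ) (hi : i + 1 < n) : ℝ :=
  (θ ⟨i + 1, hi⟩ - θ ⟨i, Nat.lt_of_succ_lt hi⟩) /
    (design n ⟨i + 1, hi⟩ - design n ⟨i, Nat.lt_of_succ_lt hi⟩)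

/-- The cone `K_n` of vectors with nondecreasing slopes. -/
def cone (n : ℕ) : Set (Fin n → ℝ) :=
  {θ | ∀ (i j : ℕ) (hi : i + 1 < n) (hj : j + 1 < n), i ≤ j → slope θ i hi ≤ slope θ j hj}

/-- `θ` is the convex least squares fit of the data `Y`. -/
def IsLSE (n : ℕ) (Y θ : Fin n → ℝ) : Prop :=
  θ ∈ cone n ∧ ∀ φ ∈ cone n, ∑ i, (Y i - θ i) ^ 2 ≤ ∑ i, (Y i - φ i) ^ 2

end Pool.Agent.H458Z.Cvx
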