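import Pool.Agent.H458Z.Cvx.Defs

set_option autoImplicit false

namespace Pool.Agent.H458Z.Cvx

open Finset

/-- Second difference. -/
def dd (φ : ℕ → ℝ) (i : ℕ) : ℝ := φ i - 2 * φ (i + 1) + φ (i + 2)

lemma slope_eq {n : ℕ} (φ : ℕ → ℝ) (i : ℕ) (hi : i + 1 < n) :
    slope (fun k : Fin n => φ k) i hi = (φ (i + 1) - φ i) * ((n : ℝ) - 1) := by
  have h : (0 : ℝ) < (n : ℝ) - 1 := by
    have : (1 : ℝ) < n := by exact_mod_cast (by omega : 1 < n)
    linarith
  simp only [slope, design]
  push_cast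
  field_simp
  ring

lemma mem_cone_iff {n : ℕ} (φ : ℕ → ℝ) :
    (fun k : Fin n => φ k) ∈ cone n ↔ ∀ i, i + 2 < n → 0 ≤ dd φ i := by
  constructor
  · intro h i hi
    have h1 := h i (i + 1) (by omega) (by omega) (by omega)
    rw [slope_eq, slope_eq] at h1
    have h0 : (0 : ℝ) < (n : ℝ) - 1 := by
      have : (1 : ℝ) < n := by exact_mod_cast (by omega : 1 < n)
      linarith
    have := le_of_mul_le_mul_right h1 h0
    simp only [dd]
    linarith
  · intro h i j hi hj hij
    rw [slope_eq, slope_eq]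
    have h0 : (0 : ℝ) ≤ (n : ℝ) - 1 := by
      have : (1 : ℝ) < n := by exact_mod_cast (by omega : 1 < n)
      linarith
    apply mul_le_mul_of_nonneg_right _ h0
    induction j, hij using Nat.le_induction with
    | base => exact le_rfl
    | succ j hij ih =>
      have := h j (by omega)
      simp only [dd] at this
      have := ih (by omega)
      linarith

lemma variational {n : ℕ} {y θ ψ : ℕ → ℝ}
    (hmin : ∀ φ : ℕ → ℝ, (∀ i, i + 2 < n → 0 ≤ dd φ i) →
      ∑ i ∈ range n, (y i - θ i) ^ 2 ≤ ∑ i ∈ range n, (y i - φ i) ^ 2)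
    {t₀ : ℝ} (ht₀ : 0 < t₀)
    (hfeas : ∀ t, 0 < t → t ≤ t₀ → ∀ i, i + 2 < n → 0 ≤ dd θ i + t * dd ψ i) :
    ∑ i ∈ range n, (y i - θ i) * ψ i ≤ 0 := by
  set A := ∑ i ∈ range n, (y i - θ i) * ψ i with hA
  set B := ∑ i ∈ range n, ψ i ^ 2 with hB
  have hB0 : 0 ≤ B := sum_nonneg fun i _ => sq_nonneg _
  have key : ∀ t, 0 < t → t ≤ t₀ → 2 * A ≤ t * B := by
    intro t ht ht'
    have h1 := hmin (fun i => θ i + t * ψ i) (fun i hi => by
      have := hfeas t ht ht' i hi
      simp only [dd] at this ⊢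
      linarith)
    have h2 : ∑ i ∈ range n, (y i - (θ i + t * ψ i)) ^ 2 =
        ∑ i ∈ range n, (y i - θ i) ^ 2 - 2 * t * A + t ^ 2 * B := by
      rw [hA, hB, mul_sum, mul_sum, ← sum_sub_distrib, ← sum_add_distrib]
      exact sum_congr rfl fun i _ => by ring
    rw [h2] at h1
    have h3 : t * (2 * A) ≤ t * (t * B) := by nlinarith
    exact le_of_mul_le_mul_left h3 ht
  by_contra hn
  push Not at hn
  have h1 := key (min t₀ (A / (B + 1))) (lt_min ht₀ (by positivity)) (min_le_left _ _)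
  have h2 : min t₀ (A / (B + 1)) * B ≤ A / (B + 1) * B :=
    mul_le_mul_of_nonneg_right (min_le_right _ _) hB0
  have h3 : A / (B + 1) * B ≤ A := by
    rw [div_mul_eq_mul_div, div_le_iff₀ (by linarith)]
    nlinarith
  linarith

/-- Hinge function. -/
noncomputable def hinge (j i : ℕ) : ℝ := if i ≤ j then (j : ℝ) - i else 0

lemma dd_hinge (j i : ℕ) : dd (hinge j) i = if i + 1 = j then 1 else 0 := by
  simp only [dd, hinge]
  by_cases h1 : i + 2 ≤ j
  · rw [if_pos (by omega), if_pos (by omega), if_pos h1, if_neg (by omega)]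
    push_cast; ring
  by_cases h2 : i + 1 = j
  · rw [if_pos (by omega), if_pos (by omega), if_neg h1, if_pos h2, ← h2]
    push_cast; ring
  by_cases h3 : i = j
  · rw [if_pos (by omega), if_neg (by omega), if_neg h1, if_neg h2, h3]
    ring
  · rw [if_neg (by omega), if_neg (by omega), if_neg h1, if_neg h2]
    ring

lemma sum_hinge {n : ℕ} (r : ℕ → ℝ) {m j : ℕ} (hm : m < n) (hj : j ≤ m + 1) (hj' : m ≤ j) :
    ∑ i ∈ range n, r i * hinge j i = ∑ i ∈ range (m + 1), r i * ((j : ℝ) - i) := by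
  rw [← sum_subset (s₁ := range (m + 1)) (s₂ := range n) (by intro x; simp; omega)]
  · apply sum_congr rfl
    intro i hi
    rw [hinge, if_pos (by simp at hi; omega)]
  · intro i _ hi
    simp only [mem_range, not_lt] at hi
    rw [hinge]
    split_ifs with h
    · have : i = j := by omega
      simp [this]
    · simp

lemma sum_c (m : ℕ) (k : ℕ) : ∑ t ∈ range k, (4 * (m : ℝ) + 2 - 6 * t) =
    k * (4 * m + 2) - 3 * k * (k - 1) := by
  induction k with
  | zero => simp
  | succ k ih => rw [sum_range_succ, ih]; push_cast; ring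

lemma sum_ct (m : ℕ) (k : ℕ) : ∑ t ∈ range k, (4 * (m : ℝ) + 2 - 6 * t) * t =
    (2 * m + 1) * k * (k - 1) - (k - 1) * k * (2 * k - 1) := by
  induction k with
  | zero => simp
  | succ k ih => rw [sum_range_succ, ih]; push_cast; ring

/-- The weights. -/
noncomputable def wt (m t : ℕ) : ℝ := (4 * (m : ℝ) + 2 - 6 * t) / ((m + 1) * (m + 2))

lemma abs_wt {m t : ℕ} (ht : t ≤ m) : |wt m t| ≤ 4 / (m + 1) := by
  have h : (t : ℝ) ≤ m := by exact_mod_cast ht
  have h0 : (0 : ℝ) ≤ t := by positivity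
  have hm : (0 : ℝ) ≤ m := by positivity
  rw [wt, abs_div, abs_of_pos (by positivity : (0 : ℝ) < (m + 1) * (m + 2)),
    div_le_div_iff₀ (by positivity) (by positivity)]
  have : |4 * (m : ℝ) + 2 - 6 * t| ≤ 4 * (m + 2) := by
    rw [abs_le]; constructor <;> linarith
  nlinarith

theorem det_bound {n : ℕ} (hn : 2 ≤ n) {y θ : ℕ → ℝ} (hθ : ∀ i, i + 2 < n → 0 ≤ dd θ i)
    (hmin : ∀ φ : ℕ → ℝ, (∀ i, i + 2 < n → 0 ≤ dd φ i) →
      ∑ i ∈ range n, (y i - θ i) ^ 2 ≤ ∑ i ∈ range n, (y i - φ i) ^ 2) :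
    y 0 ≤ θ 0 ∧ ∃ m, m < n ∧ θ 0 ≤ ∑ t ∈ range (m + 1), wt m t * y t := by
  have hle : ∀ j, ∑ i ∈ range n, (y i - θ i) * hinge j i ≤ 0 := by
    intro j
    apply variational hmin one_pos
    intro t ht _ i hi
    have := hθ i hi
    rw [dd_hinge]
    split_ifs <;> linarith
  constructor
  · have := hle 1
    rw [sum_hinge (m := 0) _ (by omega) (by omega) (by omega)] at this
    simp at this
    linarith
  have hex : ∃ k, n ≤ k + 2 ∨ 0 < dd θ k := ⟨n, Or.inl (by omega)⟩
  classical
  set k := Nat.find hex with hk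
  have hk1 := Nat.find_spec hex
  rw [← hk] at hk1
  have hk2 : ∀ i, i < k → i + 2 < n ∧ dd θ i = 0 := by
    intro i hi
    have := Nat.find_min hex hi
    push Not at this
    exact ⟨this.1, le_antisymm this.2 (hθ i this.1)⟩
  have hkn : k + 1 < n := by
    rcases Nat.eq_zero_or_pos k with h | h
    · omega
    · have := (hk2 (k - 1) (by omega)).1
      omega
  have hge : 0 ≤ ∑ i ∈ range n, (y i - θ i) * hinge (k + 1) i := by
    have key : ∑ i ∈ range n, (y i - θ i) * (fun i => - hinge (k + 1) i) i ≤ 0 := by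
      rcases hk1 with h | h
      · apply variational hmin one_pos
        intro t ht _ i hi
        have e : dd (fun i => - hinge (k + 1) i) i = - dd (hinge (k + 1)) i := by
          simp only [dd]; ring
        rw [e, dd_hinge, if_neg (by omega)]
        have := hθ i hi
        linarith
      · apply variational hmin h
        intro t ht ht' i hi
        have e : dd (fun i => - hinge (k + 1) i) i = - dd (hinge (k + 1)) i := by
          simp only [dd]; ring
        rw [e, dd_hinge]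
        split_ifs with h'
        · have : i = k := by omega
          rw [this]
          linarith
        · have := hθ i hi
          linarith
    simp only [mul_neg, sum_neg_distrib] at key
    linarith
  have hlin : ∀ t, t ≤ k → θ (t + 1) - θ t = θ 1 - θ 0 := by
    intro t ht
    induction t with
    | zero => simp
    | succ t ih =>
      have h1 := (hk2 t (by omega)).2
      have h2 := ih (by omega)
      simp only [dd] at h1
      linarith
  have hlin2 : ∀ t, t ≤ k + 1 → θ t = θ 0 + (θ 1 - θ 0) * t := by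
    intro t ht
    induction t with
    | zero => simp
    | succ t ih =>
      have h1 := hlin t (by omega)
      have h2 := ih (by omega)
      push_cast
      linarith
  refine ⟨k + 1, hkn, ?_⟩
  have H0 := hle (k + 1)
  have H1 := hle (k + 2)
  rw [sum_hinge (m := k + 1) _ hkn (by omega) (by omega)] at H0 H1 hge
  set m := k + 1 with hm
  have hm1 : (1 : ℝ) ≤ m := by exact_mod_cast (by omega : 1 ≤ m)
  have e2 : ((k + 2 : ℕ) : ℝ) = m + 1 := by rw [hm]; push_cast; ring
  rw [e2] at H1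
  have hsum : ∑ t ∈ range (m + 1), (4 * (m : ℝ) + 2 - 6 * t) * (y t - θ t) =
      (2 * m + 4) * ∑ i ∈ range (m + 1), (y i - θ i) * ((m : ℝ) - i) -
        2 * (m - 1) * ∑ i ∈ range (m + 1), (y i - θ i) * ((m : ℝ) + 1 - i) := by
    rw [mul_sum, mul_sum, ← sum_sub_distrib]
    exact sum_congr rfl fun i _ => by ring
  have hpos : 0 ≤ ∑ t ∈ range (m + 1), (4 * (m : ℝ) + 2 - 6 * t) * (y t - θ t) := by
    rw [hsum]
    nlinarith
  have hθs : ∑ t ∈ range (m + 1), (4 * (m : ℝ) + 2 - 6 * t) * θ t = (m + 1) * (m + 2) * θ 0 := by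
    have : ∑ t ∈ range (m + 1), (4 * (m : ℝ) + 2 - 6 * t) * θ t =
        θ 0 * ∑ t ∈ range (m + 1), (4 * (m : ℝ) + 2 - 6 * t) +
        (θ 1 - θ 0) * ∑ t ∈ range (m + 1), (4 * (m : ℝ) + 2 - 6 * t) * t := by
      rw [mul_sum, mul_sum, ← sum_add_distrib]
      apply sum_congr rfl
      intro t ht
      rw [hlin2 t (by simp at ht; omega)]
      ring
    rw [this, sum_c, sum_ct]
    push_cast
    ring
  have hw : ∑ t ∈ range (m + 1), wt m t * y t =
      (∑ t ∈ range (m + 1), (4 * (m : ℝ) + 2 - 6 * t) * y t) / ((m + 1) * (m + 2)) := by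
    rw [sum_div]
    exact sum_congr rfl fun t _ => by rw [wt]; ring
  rw [hw, le_div_iff₀ (by positivity)]
  simp only [mul_sub, sum_sub_distrib] at hpos
  rw [hθs] at hpos
  linarith

theorem lse_bound {n : ℕ} (hn : 2 ≤ n) {g e θ : Fin n → ℝ} {F : ℝ} (hg : ∀ i, |g i| ≤ F)
    (h : IsLSE n (fun i => g i + e i) θ) :
    -F + e ⟨0, by omega⟩ ≤ θ ⟨0, by omega⟩ ∧ ∃ m, m < n ∧ θ ⟨0, by omega⟩ ≤ 4 * F +
      ∑ i ∈ univ.filter (fun i : Fin n => (i : ℕ) ≤ m), wt m i * e i := by
  have hn0 : 0 < n := by omega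
  let ext : (Fin n → ℝ) → ℕ → ℝ := fun φ i => if hi : i < n then φ ⟨i, hi⟩ else 0
  have hext : ∀ φ : Fin n → ℝ, ∀ i : Fin n, ext φ i = φ i := fun φ i => by simp [ext]
  have hext' : ∀ φ : Fin n → ℝ, (fun i : Fin n => ext φ i) = φ := fun φ => funext (hext φ)
  have hb := det_bound hn (y := ext fun i => g i + e i) (θ := ext θ)
    ((mem_cone_iff _).1 (by rw [hext']; exact h.1)) (fun φ hφ => by
      have := h.2 _ ((mem_cone_iff φ).2 hφ)
      rw [← Fin.sum_univ_eq_sum_range (fun i => (ext (fun i => g i + e i) i - ext θ i) ^ 2),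
        ← Fin.sum_univ_eq_sum_range (fun i => (ext (fun i => g i + e i) i - φ i) ^ 2)]
      simpa only [hext] using this)
  have h0 : ∀ φ : Fin n → ℝ, ext φ 0 = φ ⟨0, hn0⟩ := fun φ => hext φ ⟨0, hn0⟩
  obtain ⟨h1, m, hm, h2⟩ := hb
  have h00 := h0 fun i => g i + e i
  rw [h0 θ] at h1 h2
  rw [h00] at h1
  refine ⟨by linarith [(abs_le.1 (hg ⟨0, hn0⟩)).1], m, hm, h2.trans ?_⟩
  have hF : 0 ≤ F := (abs_nonneg _).trans (hg ⟨0, by omega⟩)
  have e1 : ∀ φ : Fin n → ℝ, ∑ t ∈ range (m + 1), wt m t * ext φ t =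
      ∑ i ∈ univ.filter (fun i : Fin n => (i : ℕ) ≤ m), wt m i * φ i := by
    intro φ
    rw [sum_filter]
    have : ∑ i : Fin n, (if (i : ℕ) ≤ m then wt m i * φ i else 0) =
        ∑ i : Fin n, (fun t => if t ≤ m then wt m t * ext φ t else 0) i := by
      simp only [hext]
    rw [this, Fin.sum_univ_eq_sum_range (fun t => if t ≤ m then wt m t * ext φ t else 0),
      ← sum_filter]
    apply sum_congr _ fun _ _ => rfl
    ext t
    simp
    omega
  rw [e1 fun i => g i + e i]
  simp only [mul_add, sum_add_distrib]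
  have e2 : ∑ i ∈ univ.filter (fun i : Fin n => (i : ℕ) ≤ m), wt m i * g i ≤ 4 * F := by
    rw [← e1 g]
    have : ∀ t ∈ range (m + 1), wt m t * ext g t ≤ 4 / (m + 1) * F := by
      intro t ht
      have ht' : t ≤ m := by simp at ht; omega
      refine (le_abs_self _).trans ?_
      rw [abs_mul]
      apply mul_le_mul (abs_wt ht') _ (abs_nonneg _) (by positivity)
      have := hext g ⟨t, by omega⟩
      simp only at this
      rw [this]
      exact hg _
    refine (sum_le_card_nsmul _ _ _ this).trans (le_of_eq ?_)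
    simp only [card_range, nsmul_eq_mul]
    push_cast
    field_simp
  linarith

end Pool.Agent.H458Z.Cvx
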