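import Pool.Agent.H458Z.Cvx.Det

set_option autoImplicit false

namespace Pool.Agent.H458Z.Cvx

open Finset MeasureTheory ProbabilityTheory
open scoped NNReal ENNReal

variable {Ω : Type} [MeasurableSpace Ω] {P : Measure Ω}

lemma subG {X : Ω → ℝ} {v : ℝ≥0} (h : HasLaw X (gaussianReal 0 v) P) {w b : ℝ} (hw : |w| ≤ b) :
    HasSubgaussianMGF (fun ω => w * X ω) (Real.toNNReal (b ^ 2) * v) P := by
  have h0 : HasSubgaussianMGF X v P := by
    rw [← HasSubgaussianMGF.id_map_iff h.aemeasurable, h.map_eq]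
    refine ⟨fun t => integrable_exp_mul_gaussianReal t, fun t => ?_⟩
    rw [mgf_id_gaussianReal]
    simp
  have h1 := h0.const_mul w
  refine ⟨h1.integrable_exp_mul, fun t => (h1.mgf_le t).trans ?_⟩
  apply Real.exp_le_exp.2
  have : w ^ 2 ≤ b ^ 2 := sq_le_sq' (abs_le.1 hw).1 (abs_le.1 hw).2
  simp only [NNReal.coe_mul, Real.coe_toNNReal _ (sq_nonneg b)]
  gcongr
  exact this

lemma card_filter_le {n m : ℕ} (hm : m < n) :
    (univ.filter (fun i : Fin n => (i : ℕ) ≤ m)).card = m + 1 := by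
  have : univ.filter (fun i : Fin n => (i : ℕ) ≤ m) = Finset.Iic (⟨m, hm⟩ : Fin n) := by
    ext i
    simp [Fin.le_def]
  rw [this, Fin.card_Iic]

lemma tail_sum {n : ℕ} {ε : Fin n → Ω → ℝ} {v : ℝ≥0} (hv : 0 < v) (hind : iIndepFun ε P)
    (hlaw : ∀ i, HasLaw (ε i) (gaussianReal 0 v) P) {m : ℕ} (hm : m < n) {u : ℝ} (hu : 0 ≤ u) :
    P.real {ω | u ≤ ∑ i ∈ univ.filter (fun i : Fin n => (i : ℕ) ≤ m), wt m i * ε i ω} ≤
      Real.exp (-u ^ 2 / (32 * v)) ^ (m + 1) := by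
  have hind' : iIndepFun (fun (i : Fin n) ω => wt m i * ε i ω) P :=
    hind.comp (fun (i : Fin n) (x : ℝ) => wt m i * x) (fun i => by fun_prop)
  have h := HasSubgaussianMGF.measure_sum_ge_le_of_iIndepFun hind'
    (c := fun _ => Real.toNNReal ((4 / ((m : ℝ) + 1)) ^ 2) * v)
    (s := univ.filter (fun i : Fin n => (i : ℕ) ≤ m))
    (fun i hi => subG (hlaw i) (abs_wt (by simpa using hi))) hu
  refine h.trans (le_of_eq ?_)
  rw [← Real.exp_nat_mul]
  congr 1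
  have hv' : (0 : ℝ) < v := hv
  simp only [sum_const, card_filter_le hm, nsmul_eq_mul, NNReal.coe_mul, NNReal.coe_natCast,
    Real.coe_toNNReal _ (sq_nonneg _)]
  push_cast
  field_simp
  ring

lemma tail_one {X : Ω → ℝ} {v : ℝ≥0} (h : HasLaw X (gaussianReal 0 v) P) {u : ℝ}
    (hu : 0 ≤ u) : P.real {ω | u ≤ -1 * X ω} ≤ Real.exp (-u ^ 2 / (32 * v)) := by
  have h1 := (subG h (w := -1) (b := 4) (by norm_num)).measure_ge_le hu
  refine h1.trans (le_of_eq ?_)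
  congr 1
  simp only [NNReal.coe_mul, Real.coe_toNNReal _ (sq_nonneg _)]
  ring

lemma geom_le {q : ℝ} (h0 : 0 ≤ q) (h1 : q ≤ 1 / 2) (n : ℕ) :
    ∑ m ∈ range n, q ^ (m + 1) ≤ 2 * q - 2 * q ^ (n + 1) := by
  induction n with
  | zero => simp
  | succ n ih =>
    rw [sum_range_succ, pow_succ q (n + 1)]
    have : 0 ≤ q ^ (n + 1) := by positivity
    nlinarith

theorem tail_bound [IsProbabilityMeasure P] {n : ℕ} (hn : 2 ≤ n) {ε : Fin n → Ω → ℝ} {v : ℝ≥0}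
    (hv : 0 < v) (hind : iIndepFun ε P) (hlaw : ∀ i, HasLaw (ε i) (gaussianReal 0 v) P)
    {g : Fin n → ℝ} {F : ℝ} (hg : ∀ i, |g i| ≤ F) {θ : Ω → Fin n → ℝ}
    (hθ : ∀ ω, IsLSE n (fun i => g i + ε i ω) (θ ω)) {u : ℝ} (hu : 0 ≤ u)
    (hq : Real.exp (-u ^ 2 / (32 * v)) ≤ 1 / 2) :
    P.real {ω | 4 * F + u < |θ ω ⟨0, by omega⟩|} ≤ 3 * Real.exp (-u ^ 2 / (32 * v)) := by
  set q := Real.exp (-u ^ 2 / (32 * v)) with hqdef
  have hq0 : 0 ≤ q := (Real.exp_pos _).le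
  have hF : 0 ≤ F := (abs_nonneg _).trans (hg ⟨0, by omega⟩)
  have hsub : {ω | 4 * F + u < |θ ω ⟨0, by omega⟩|} ⊆ {ω | u ≤ -1 * ε ⟨0, by omega⟩ ω} ∪
      ⋃ m ∈ range n,
        {ω | u ≤ ∑ i ∈ univ.filter (fun i : Fin n => (i : ℕ) ≤ m), wt m i * ε i ω} := by
    intro ω hω
    obtain ⟨h1, m, hm, h2⟩ := lse_bound hn hg (hθ ω)
    rcases lt_abs.1 (show 4 * F + u < |θ ω ⟨0, by omega⟩| from hω) with h | h
    · right
      simp only [Set.mem_iUnion]
      refine ⟨m, mem_range.2 hm, ?_⟩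
      show u ≤ _
      linarith
    · left
      show u ≤ _
      linarith
  refine (measureReal_mono hsub).trans ((measureReal_union_le _ _).trans ?_)
  have a1 := tail_one (hlaw ⟨0, by omega⟩) hu
  have a2 := measureReal_biUnion_finset_le (μ := P) (range n) (fun m =>
    {ω | u ≤ ∑ i ∈ univ.filter (fun i : Fin n => (i : ℕ) ≤ m), wt m i * ε i ω})
  have a3 : ∑ m ∈ range n, P.real
      {ω | u ≤ ∑ i ∈ univ.filter (fun i : Fin n => (i : ℕ) ≤ m), wt m i * ε i ω} ≤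
      ∑ m ∈ range n, q ^ (m + 1) :=
    sum_le_sum fun m hm => tail_sum hv hind hlaw (mem_range.1 hm) hu
  have a4 := geom_le hq0 hq n
  have a5 : 0 ≤ q ^ (n + 1) := by positivity
  linarith

lemma exists_u {v η : ℝ} (hv : 0 < v) (hη : 0 < η) :
    ∃ u : ℝ, 0 ≤ u ∧ Real.exp (-u ^ 2 / (32 * v)) ≤ η := by
  refine ⟨Real.sqrt (32 * v * |Real.log η|), Real.sqrt_nonneg _, ?_⟩
  rw [Real.sq_sqrt (by positivity), ← Real.exp_log hη]
  apply Real.exp_le_exp.2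
  rw [Real.log_exp]
  have : -(32 * v * |Real.log η|) / (32 * v) = -|Real.log η| := by field_simp
  rw [this]
  exact neg_abs_le _

lemma design_mem {n : ℕ} (hn : 2 ≤ n) (i : Fin n) : design n i ∈ Set.Icc (0 : ℝ) 1 := by
  have h1 : (2 : ℝ) ≤ n := by exact_mod_cast hn
  have h2 : ((i : ℕ) : ℝ) + 1 ≤ n := by exact_mod_cast i.2
  constructor
  · exact div_nonneg (by positivity) (by linarith)
  · rw [design, div_le_one (by linarith)]
    linarith

theorem tight (f : ℝ → ℝ) (hcont : ContinuousOn f (Set.Icc 0 1)) (σ : ℝ) (hσ : 0 < σ)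
    (Ω : ℕ → Type) [∀ n, MeasurableSpace (Ω n)] (P : ∀ n, Measure (Ω n))
    [∀ n, IsProbabilityMeasure (P n)] (ε : ∀ n, Fin n → Ω n → ℝ)
    (hind : ∀ n, iIndepFun (ε n) (P n))
    (hlaw : ∀ n i, HasLaw (ε n i) (gaussianReal 0 (Real.toNNReal (σ ^ 2))) (P n))
    (θ : ∀ n, Ω n → Fin n → ℝ)
    (hθ : ∀ n, 3 ≤ n → ∀ ω, IsLSE n (fun i => f (design n i) + ε n i ω) (θ n ω))
    (η : ℝ) (hη : 0 < η) :
    ∃ M : ℝ, (⨆ (n : ℕ) (hn : 3 ≤ n), P n {ω | M < |θ n ω ⟨0, by omega⟩|}) < ENNReal.ofReal η := by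
  obtain ⟨F, hF⟩ := isCompact_Icc.exists_bound_of_continuousOn hcont
  have hv : 0 < Real.toNNReal (σ ^ 2) := Real.toNNReal_pos.2 (by positivity)
  obtain ⟨u, hu, hq⟩ := exists_u (v := Real.toNNReal (σ ^ 2)) (η := min (η / 4) (1 / 2)) hv
    (lt_min (by linarith) (by norm_num))
  refine ⟨4 * F + u, lt_of_le_of_lt (b := ENNReal.ofReal (3 * (η / 4))) ?_ ?_⟩
  · refine iSup₂_le fun n hn => ?_
    have := tail_bound (P := P n) (by omega : 2 ≤ n) hv (hind n) (hlaw n)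
      (g := fun i => f (design n i)) (F := F) (fun i => hF _ (design_mem (by omega) i))
      (hθ n hn) hu (hq.trans (min_le_right _ _))
    rw [← ofReal_measureReal]
    apply ENNReal.ofReal_le_ofReal
    have h2 := hq.trans (min_le_left _ _)
    linarith
  · exact (ENNReal.ofReal_lt_ofReal_iff hη).2 (by linarith)

end Pool.Agent.H458Z.Cvx
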